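import Pool.Agent.H929.BG.Stm

/-!
# BG-RecE: the recursion, emptiness
-/

set_option autoImplicit false

namespace Pool.Agent.H548.BG

open Finset Pool.Agent.TH3.IR Pool.Agent.Y55.Col Pool.Agent.H929.BW Pool.Agent.H929.BG

/-- a base and a finite family of parts -/
theorem PE_sum (h1 : S_PEadd) (n : ℕ) (H : ℝ) (M₀ : Multiset ℕ) (b₀ : ℝ) (hb₀ : 1 ≤ b₀)
    (h₀ : PE n M₀ b₀ H) (S : Finset ℕ) (M : ℕ → Multiset ℕ) (b : ℕ → ℝ)
    (hS : ∀ v ∈ S, (b v = 0 ∧ M v = 0) ∨ (1 ≤ b v ∧ PE n (M v) (b v) H)) :
    1 ≤ b₀ + ∑ v ∈ S, b v ∧ PE n (M₀ + ∑ v ∈ S, M v) (b₀ + ∑ v ∈ S, b v) H := by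
  classical
  induction S using Finset.induction_on with
  | empty => simpa using ⟨hb₀, h₀⟩
  | insert w S hw ih =>
    obtain ⟨ih1, ih2⟩ := ih fun v hv => hS v (Finset.mem_insert_of_mem hv)
    rw [Finset.sum_insert hw, Finset.sum_insert hw]
    rcases hS w (Finset.mem_insert_self w S) with ⟨e1, e2⟩ | ⟨e1, e2⟩
    · rw [e1, e2, zero_add, zero_add]
      exact ⟨ih1, ih2⟩
    · have e3 := h1 n _ _ _ _ H ih1 e1 ih2 e2
      have e4 : M₀ + (M w + ∑ v ∈ S, M v) = M₀ + ∑ v ∈ S, M v + M w := by
        rw [add_comm (M w), add_assoc]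
      have e5 : b₀ + (b w + ∑ v ∈ S, b v) = b₀ + ∑ v ∈ S, b v + b w := by ring
      rw [e4, e5]
      exact ⟨by linarith, e3⟩

theorem rec_aux (h1 : S_PEadd) (h2 : S_PEnode) (n : ℕ) (Λ C : ℝ) (hn : 1 ≤ n) (hΛ : 1 ≤ Λ)
    (hC : 0 ≤ C) (hStep : StepE n Λ C) (hFin : FinE n Λ C) (j : ℕ) :
    ∀ (A : Finset ℕ) (r : ℕ → ℕ) (β h : ℕ → ℝ) (H : ℝ), H ≤ 2 ^ j * (24 * (1 + Λ)) →
    Data n Λ A β h H →
    (∀ v ∈ A, β v * H ^ (n + 1) + C * (min H (h v)) ^ n ≤ r v * gg n v ^ (n + 1)) →
    PE n (∑ v ∈ A, Multiset.replicate (r v) v) (∑ v ∈ A, β v) H := by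
  have h3N : (2 : ℝ) ^ (n + 1) * (21 / 4) ≤ 3 ^ (n + 2) := by
    obtain ⟨k, rfl⟩ : ∃ k, n = k + 1 := ⟨n - 1, by omega⟩
    have e1 : (2 : ℝ) ^ k ≤ 3 ^ k := pow_le_pow_left₀ (by norm_num) (by norm_num) k
    have e2 : (2 : ℝ) ^ (k + 1 + 1) = 4 * 2 ^ k := by ring
    have e3 : (3 : ℝ) ^ (k + 1 + 2) = 27 * 3 ^ k := by ring
    have e4 : (0 : ℝ) < 3 ^ k := by positivity
    rw [e2, e3]
    linarith
  induction j with
  | zero =>
    intro A r β h H hH hD hr
    classical
    -- all the groups are finishing
    have hfin : ∀ v ∈ A, 1 ≤ β v ∧ PE n (Multiset.replicate (r v) v) (β v) H := by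
      intro v hv
      have e1 : (1 : ℝ) ≤ v := by exact_mod_cast hD.one v hv
      have e2 := le_gg n v
      have e3 : H ≤ 24 * (gg n v + Λ) := by
        rw [pow_zero, one_mul] at hH
        linarith
      have e4 := hD.hbig v hv
      obtain ⟨e5, e6⟩ := hD.used v hv (e3.trans e4)
      refine ⟨by linarith, hFin v (r v) (β v) H (hD.one v hv) e5 e6 (hD.big v hv) e3 ?_⟩
      have e7 := hr v hv
      rwa [min_eq_left (e3.trans e4)] at e7
    obtain ⟨v₀, hv₀⟩ := hD.ne
    have e1 := (PE_sum h1 n H (Multiset.replicate (r v₀) v₀) (β v₀) (hfin v₀ hv₀).1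
      (hfin v₀ hv₀).2 (A.erase v₀) (fun v => Multiset.replicate (r v) v) β
      (fun v hv => Or.inr (hfin v (Finset.mem_of_mem_erase hv)))).2
    rwa [Finset.add_sum_erase A β hv₀,
      Finset.add_sum_erase A (fun v => Multiset.replicate (r v) v) hv₀] at e1
  | succ j ih =>
    intro A r β h H hH hD hr
    classical
    have hHp : 0 < H := by
      obtain ⟨v, hv⟩ := hD.ne
      have e1 : (1 : ℝ) ≤ v := by exact_mod_cast hD.one v hv
      have e2 := le_gg n v
      have e3 := hD.big v hv
      linarith
    have hHN : 0 < H ^ (n + 1) := pow_pos hHp _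
    have hpos : ∀ v ∈ A, 0 < h v := by
      intro v hv
      have e1 : (1 : ℝ) ≤ v := by exact_mod_cast hD.one v hv
      have e2 := le_gg n v
      have e3 := hD.hbig v hv
      linarith
    have key : ∀ v ∈ A, ∃ (a : ℝ) (r₁ r₂ : ℕ), r₁ + r₂ = r v ∧
        ((a = 0 ∧ r₁ = 0) ∨ (1 ≤ a ∧ PE n (Multiset.replicate r₁ v) a H)) ∧
        (H ≤ 24 * (gg n v + Λ) → a = β v ∧ r₂ = 0) ∧
        (24 * (gg n v + Λ) < H →
          (β v - a) * H ^ (n + 1) + C * (min (H / 2) (h v)) ^ n ≤ r₂ * gg n v ^ (n + 1) ∧
          (H ≤ h v → 5 / 2 ≤ β v - a ∧ β v - a ≤ 21 / 4) ∧ (h v < H → a = 0)) := by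
      intro v hv
      have e7 := hr v hv
      have hv0 := hpos v hv
      rcases le_or_gt H (24 * (gg n v + Λ)) with e3 | e3
      · have e4 := hD.hbig v hv
        obtain ⟨e5, e6⟩ := hD.used v hv (e3.trans e4)
        refine ⟨β v, r v, 0, by simp, Or.inr ⟨by linarith, ?_⟩, fun _ => ⟨rfl, rfl⟩,
          fun hcon => absurd e3 (not_le.mpr hcon)⟩
        refine hFin v (r v) (β v) H (hD.one v hv) e5 e6 (hD.big v hv) e3 ?_
        rwa [min_eq_left (e3.trans e4)] at e7
      · have hmin0 : 0 ≤ min (H / 2) (h v) := le_min (by linarith) hv0.le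
        rcases lt_or_ge (h v) H with e4 | e4
        · -- not used
          refine ⟨0, 0, r v, by simp, Or.inl ⟨rfl, rfl⟩, fun hcon => absurd hcon (not_le.mpr e3),
            fun _ => ⟨?_, fun hcon => absurd hcon (not_le.mpr e4), fun _ => rfl⟩⟩
          have e5 : (min (H / 2) (h v)) ^ n ≤ (min H (h v)) ^ n :=
            pow_le_pow_left₀ hmin0 (min_le_min (by linarith) le_rfl) n
          have e6 := mul_le_mul_of_nonneg_left e5 hC
          rw [sub_zero]
          linarith
        · obtain ⟨e5, e6⟩ := hD.used v hv e4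
          rw [min_eq_left e4] at e7
          rcases lt_or_ge (β v) (21 / 4) with e8 | e8
          · refine ⟨0, 0, r v, by simp, Or.inl ⟨rfl, rfl⟩,
              fun hcon => absurd hcon (not_le.mpr e3),
              fun _ => ⟨?_, fun _ => ⟨by linarith, by linarith⟩, fun _ => rfl⟩⟩
            have e9 : (min (H / 2) (h v)) ^ n ≤ H ^ n :=
              pow_le_pow_left₀ hmin0 ((min_le_left _ _).trans (by linarith)) n
            have e10 := mul_le_mul_of_nonneg_left e9 hC
            rw [sub_zero]
            linarith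
          · obtain ⟨a, r₁, r₂, f1, f2, f3, f4, f5, f6⟩ :=
              hStep v (r v) (β v) H (hD.one v hv) e8 e6 (by linarith) e7
            refine ⟨a, r₁, r₂, f4, Or.inr ⟨by linarith, f5⟩,
              fun hcon => absurd hcon (not_le.mpr e3),
              fun _ => ⟨?_, fun _ => ⟨f2, f3⟩, fun hcon => absurd hcon (not_lt.mpr e4)⟩⟩
            have e9 : (min (H / 2) (h v)) ^ n ≤ (H / 2) ^ n :=
              pow_le_pow_left₀ hmin0 (min_le_left _ _) n
            have e10 := mul_le_mul_of_nonneg_left e9 hC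
            linarith
    choose! a r₁ r₂ k1 k2 k3 k4 using key
    obtain ⟨A', hA'⟩ : ∃ A' : Finset ℕ, A' = A.filter (fun v => 24 * (gg n v + Λ) < H) :=
      ⟨_, rfl⟩
    have memA' : ∀ v, v ∈ A' ↔ v ∈ A ∧ 24 * (gg n v + Λ) < H := by
      intro v
      rw [hA', Finset.mem_filter]
    have hsub : A' ⊆ A := fun v hv => ((memA' v).mp hv).1
    have hout : ∀ v ∈ A, v ∉ A' → a v = β v ∧ r₂ v = 0 := by
      intro v hv hv'
      refine k3 v hv ?_
      by_contra hcon
      exact hv' ((memA' v).mpr ⟨hv, not_le.mp hcon⟩)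
    rcases A'.eq_empty_or_nonempty with hemp | hne
    · -- all the groups are finishing
      have hfin : ∀ v ∈ A, 1 ≤ β v ∧ PE n (Multiset.replicate (r v) v) (β v) H := by
        intro v hv
        have hv' : v ∉ A' := by rw [hemp]; exact Finset.notMem_empty v
        have e3 : H ≤ 24 * (gg n v + Λ) := by
          by_contra hcon
          exact hv' ((memA' v).mpr ⟨hv, not_le.mp hcon⟩)
        have e4 := hD.hbig v hv
        obtain ⟨e5, e6⟩ := hD.used v hv (e3.trans e4)
        refine ⟨by linarith, hFin v (r v) (β v) H (hD.one v hv) e5 e6 (hD.big v hv) e3 ?_⟩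
        have e7 := hr v hv
        rwa [min_eq_left (e3.trans e4)] at e7
      obtain ⟨v₀, hv₀⟩ := hD.ne
      have e1 := (PE_sum h1 n H (Multiset.replicate (r v₀) v₀) (β v₀) (hfin v₀ hv₀).1
        (hfin v₀ hv₀).2 (A.erase v₀) (fun v => Multiset.replicate (r v) v) β
        (fun v hv => Or.inr (hfin v (Finset.mem_of_mem_erase hv)))).2
      rwa [Finset.add_sum_erase A β hv₀,
        Finset.add_sum_erase A (fun v => Multiset.replicate (r v) v) hv₀] at e1
    · -- the dichotomy
      have tot : (∃ u ∈ A', H ≤ h u) ∨ H ^ (n + 1) ≤ ∑ u ∈ A', h u ^ (n + 1) := by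
        rcases (A \ A').eq_empty_or_nonempty with hF | hF
        · have : A = A' := Finset.Subset.antisymm (Finset.sdiff_eq_empty_iff_subset.mp hF) hsub
          rw [← this]
          exact hD.total
        · right
          obtain ⟨w, hwF, hwmin⟩ : ∃ w ∈ A \ A', ∀ x ∈ A \ A', w ≤ x :=
            ⟨(A \ A').min' hF, Finset.min'_mem _ hF, fun x hx => Finset.min'_le _ x hx⟩
          obtain ⟨hwA, hwA'⟩ := Finset.mem_sdiff.mp hwF
          have e3 : H ≤ 24 * (gg n w + Λ) := by
            by_contra hcon
            exact hwA' ((memA' w).mpr ⟨hwA, not_le.mp hcon⟩)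
          have hlow : low A w = A' := by
            ext u
            unfold low
            rw [Finset.mem_filter]
            constructor
            · rintro ⟨e4, e5⟩
              by_contra hcon
              have := hwmin u (Finset.mem_sdiff.mpr ⟨e4, hcon⟩)
              omega
            · intro e4
              refine ⟨hsub e4, ?_⟩
              by_contra hcon
              have e5 : gg n w ≤ gg n u := gg_mono n (not_lt.mp hcon)
              have e6 := ((memA' u).mp e4).2
              linarith
          have e4 := hD.lower w hwA (by rw [hlow]; exact hne)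
          rw [hlow] at e4
          exact (pow_le_pow_left₀ hHp.le e3 _).trans e4
      have hnn : ∀ v ∈ A', 0 ≤ β v - a v := by
        intro v hv
        obtain ⟨hvA, hv2⟩ := (memA' v).mp hv
        obtain ⟨_, g2, g3⟩ := k4 v hvA hv2
        rcases lt_or_ge (h v) H with e4 | e4
        · rw [g3 e4, sub_zero]
          have e5 := hD.unused v hvA e4
          have e6 : 0 ≤ β v * H ^ (n + 1) := by
            rw [e5]
            have := (hpos v hvA).le
            positivity
          exact nonneg_of_mul_nonneg_left e6 hHN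
        · linarith [(g2 e4).1]
      obtain ⟨b, hb⟩ : ∃ b : ℝ, b = ∑ v ∈ A', (β v - a v) := ⟨_, rfl⟩
      have hb52 : 5 / 2 ≤ b := by
        by_cases hex : ∃ u ∈ A', H ≤ h u
        · obtain ⟨u, hu, huH⟩ := hex
          obtain ⟨huA, hu2⟩ := (memA' u).mp hu
          have e1 := ((k4 u huA hu2).2.1 huH).1
          rw [hb]
          exact e1.trans (Finset.single_le_sum (f := fun v => β v - a v) hnn hu)
        · rcases tot with hex' | htot
          · exact absurd hex' hex
          · push Not at hex
            have e1 : b * H ^ (n + 1) = 5 / 2 * ∑ u ∈ A', h u ^ (n + 1) := by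
              rw [hb, Finset.sum_mul, Finset.mul_sum]
              refine Finset.sum_congr rfl fun v hv => ?_
              obtain ⟨hvA, hv2⟩ := (memA' v).mp hv
              rw [(k4 v hvA hv2).2.2 (hex v hv), sub_zero]
              exact hD.unused v hvA (hex v hv)
            have e2 : 5 / 2 * H ^ (n + 1) ≤ b * H ^ (n + 1) := by
              rw [e1]
              linarith
            exact le_of_mul_le_mul_right e2 hHN
      have hscale : ∀ x : ℝ, 2 ^ (n + 1) * x * (H / 2) ^ (n + 1) = x * H ^ (n + 1) := by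
        intro x
        rw [div_pow]
        field_simp
      have hD' : Data n Λ A' (fun v => 2 ^ (n + 1) * (β v - a v)) h (H / 2) := by
        refine ⟨hne, fun v hv => hD.one v (hsub hv), fun v hv => ?_,
          fun v hv => hD.hbig v (hsub hv), fun v hv hvh => ?_, fun v hv hvh => ?_,
          fun w hw hlw => ?_, ?_⟩
        · have := ((memA' v).mp hv).2
          linarith
        · obtain ⟨hvA, hv2⟩ := (memA' v).mp hv
          obtain ⟨_, g2, g3⟩ := k4 v hvA hv2
          have hp2 : (1 : ℝ) ≤ 2 ^ (n + 1) := one_le_pow₀ (by norm_num)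
          rcases lt_or_ge (h v) H with e4 | e4
          · have e5 := hD.unused v hvA e4
            have e6 : 2 ^ (n + 1) * (β v - a v) * (H / 2) ^ (n + 1) = 5 / 2 * h v ^ (n + 1) := by
              rw [hscale, g3 e4, sub_zero, e5]
            have hH2N : 0 < (H / 2) ^ (n + 1) := pow_pos (by linarith) _
            have e7 : (H / 2) ^ (n + 1) ≤ h v ^ (n + 1) :=
              pow_le_pow_left₀ (by linarith) hvh _
            have e8 : h v ^ (n + 1) ≤ H ^ (n + 1) :=
              pow_le_pow_left₀ (hpos v hvA).le e4.le _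
            constructor
            · refine le_of_mul_le_mul_right ?_ hH2N
              rw [e6]
              linarith
            · refine le_of_mul_le_mul_right ?_ hH2N
              rw [e6]
              have e9 : 5 / 2 * h v ^ (n + 1) ≤ 5 / 2 * H ^ (n + 1) := by linarith
              have e10 := hscale (21 / 4)
              have e11 : 2 ^ (n + 1) * (21 / 4) * (H / 2) ^ (n + 1) ≤
                  3 ^ (n + 2) * (H / 2) ^ (n + 1) := mul_le_mul_of_nonneg_right h3N hH2N.le
              linarith
          · obtain ⟨g4, g5⟩ := g2 e4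
            constructor
            · show 5 / 2 ≤ 2 ^ (n + 1) * (β v - a v)
              nlinarith
            · show 2 ^ (n + 1) * (β v - a v) ≤ 3 ^ (n + 2)
              refine le_trans ?_ h3N
              exact mul_le_mul_of_nonneg_left g5 (by positivity)
        · obtain ⟨hvA, hv2⟩ := (memA' v).mp hv
          have e4 : h v < H := by linarith
          show 2 ^ (n + 1) * (β v - a v) * (H / 2) ^ (n + 1) = 5 / 2 * h v ^ (n + 1)
          rw [hscale, (k4 v hvA hv2).2.2 e4, sub_zero]
          exact hD.unused v hvA e4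
        · obtain ⟨hwA, hw2⟩ := (memA' w).mp hw
          have hlow : low A' w = low A w := by
            ext u
            unfold low
            rw [Finset.mem_filter, Finset.mem_filter]
            constructor
            · rintro ⟨e4, e5⟩
              exact ⟨hsub e4, e5⟩
            · rintro ⟨e4, e5⟩
              refine ⟨(memA' u).mpr ⟨e4, ?_⟩, e5⟩
              have e6 : gg n u ≤ gg n w := gg_mono n e5.le
              linarith
          rw [hlow] at hlw ⊢
          exact hD.lower w hwA hlw
        · rcases tot with ⟨u, hu, huH⟩ | htot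
          · left
            exact ⟨u, hu, by linarith⟩
          · right
            exact (pow_le_pow_left₀ (by linarith) (by linarith) _).trans htot
      have hIH := ih A' r₂ (fun v => 2 ^ (n + 1) * (β v - a v)) h (H / 2)
        (by rw [pow_succ] at hH; linarith) hD' (by
          intro v hv
          obtain ⟨hvA, hv2⟩ := (memA' v).mp hv
          show 2 ^ (n + 1) * (β v - a v) * (H / 2) ^ (n + 1) + C * min (H / 2) (h v) ^ n ≤ _
          rw [hscale]
          exact (k4 v hvA hv2).1)
      rw [← Finset.mul_sum, ← hb] at hIH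
      have hbase := h2 n _ b H hb52 hIH
      have e1 := (PE_sum h1 n H _ b (by linarith) hbase A
        (fun v => Multiset.replicate (r₁ v) v) a (by
          intro v hv
          rcases k2 v hv with ⟨f1, f2⟩ | ⟨f1, f2⟩
          · left
            refine ⟨f1, ?_⟩
            show Multiset.replicate (r₁ v) v = 0
            rw [f2]
            rfl
          · right
            exact ⟨f1, f2⟩)).2
      have e2 : ∑ v ∈ A', Multiset.replicate (r₂ v) v + ∑ v ∈ A, Multiset.replicate (r₁ v) v =
          ∑ v ∈ A, Multiset.replicate (r v) v := by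
        have e3 : ∑ v ∈ A', Multiset.replicate (r₂ v) v = ∑ v ∈ A, Multiset.replicate (r₂ v) v := by
          refine Finset.sum_subset hsub fun v hv hv' => ?_
          rw [(hout v hv hv').2]
          rfl
        rw [e3, add_comm, ← Finset.sum_add_distrib]
        refine Finset.sum_congr rfl fun v hv => ?_
        rw [← Multiset.replicate_add, k1 v hv]
      have e4 : b + ∑ v ∈ A, a v = ∑ v ∈ A, β v := by
        have e3 : b = ∑ v ∈ A, (β v - a v) := by
          rw [hb]
          refine Finset.sum_subset hsub fun v hv hv' => ?_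
          rw [(hout v hv hv').1, sub_self]
        rw [e3, ← Finset.sum_add_distrib]
        refine Finset.sum_congr rfl fun v _ => ?_
        ring
      rwa [e2, e4] at e1

theorem t_RecE (h1 : S_PEadd) (h2 : S_PEnode) : S_RecE := by
  intro n Λ C hn hΛ hC hStep hFin A r β h H hD hr
  have hH0 : 0 < 24 * (1 + Λ) := by linarith
  obtain ⟨j, hj⟩ := pow_unbounded_of_one_lt (H / (24 * (1 + Λ))) (one_lt_two : (1 : ℝ) < 2)
  rw [div_lt_iff₀ hH0] at hj
  exact rec_aux h1 h2 n Λ C hn hΛ hC hStep hFin j A r β h H hj.le hD hr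

end Pool.Agent.H548.BG
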