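import Pool.Agent.H929.BG.Stm

/-!
# BG-StepE: one step for one group of points, emptiness
-/

set_option autoImplicit false

namespace Pool.Agent.H548.BG

open Finset Pool.Agent.TH3.IR Pool.Agent.Y55.Col Pool.Agent.H929.BW Pool.Agent.H929.BG

theorem t_StepE : S_StepE := by
  intro n Λ hn hΛ hcl
  have hA0 : 0 < AE n * Λ := by
    unfold AE
    have : 0 < Λ := by linarith
    positivity
  refine ⟨AE n * Λ, fun C hC => ?_⟩
  have hC0 : 0 < C := lt_of_lt_of_le hA0 hC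
  intro m r β H hm hβ hβ' hH hr
  have hm1 : (1 : ℝ) ≤ m := by exact_mod_cast hm
  obtain ⟨g, hgdef⟩ : ∃ g : ℝ, g = gg n m := ⟨_, rfl⟩
  have hg : (m : ℝ) ≤ g := by rw [hgdef]; exact le_gg n m
  have hCE := hcl m hm
  unfold CE at hCE
  rw [← hgdef] at hH hr hCE ⊢
  have hg1 : 1 ≤ g := hm1.trans hg
  have hg0 : 0 < g := by linarith
  have hHp : 0 < H := by linarith
  obtain ⟨t, ht⟩ : ∃ t : ℕ, t = ⌊H / (2 * g)⌋₊ := ⟨_, rfl⟩
  have h2g : 0 < 2 * g := by linarith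
  have ht1 : 1 ≤ t := by
    rw [ht]
    apply Nat.le_floor
    rw [Nat.cast_one, le_div_iff₀ h2g]
    linarith
  have htH : (t : ℝ) ≤ H / (2 * g) := by
    rw [ht]
    exact Nat.floor_le (by positivity)
  have htH2 : H / (2 * g) < t + 1 := by
    rw [ht]
    exact Nat.lt_floor_add_one _
  rw [le_div_iff₀ h2g] at htH
  rw [div_lt_iff₀ h2g] at htH2
  have htg : t * g ≤ H / 2 := by linarith
  have htg2 : H / 2 - g < t * g := by linarith
  obtain ⟨M, hM, hMt⟩ := hCE t ht1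
  obtain ⟨u, hu⟩ : ∃ u : ℝ, u = t * g - 2 * Λ := ⟨_, rfl⟩
  have huM : u < M := by linarith
  have hu2 : u ≤ H / 2 := by linarith
  have hu3 : H / 3 ≤ u := by linarith
  have hu0 : 0 < u := by linarith
  have hHu2 : 2 ≤ H / u := by
    rw [le_div_iff₀ hu0]
    linarith
  have hHu3 : H / u ≤ 3 := by
    rw [div_le_iff₀ hu0]
    linarith
  have hHu0 : 0 < H / u := by positivity
  obtain ⟨k, hk⟩ : ∃ k : ℕ, k = ⌊(β - 5 / 2) * (H / u) ^ (n + 1)⌋₊ := ⟨_, rfl⟩
  have hk1 : (k : ℝ) ≤ (β - 5 / 2) * (H / u) ^ (n + 1) := by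
    rw [hk]
    apply Nat.floor_le
    have : 0 ≤ β - 5 / 2 := by linarith
    positivity
  have hk2 : (β - 5 / 2) * (H / u) ^ (n + 1) < k + 1 := by
    rw [hk]
    exact Nat.lt_floor_add_one _
  have hq0 : 0 < (H / u) ^ (n + 1) := by positivity
  have hq2 : (2 : ℝ) ^ (n + 1) ≤ (H / u) ^ (n + 1) := pow_le_pow_left₀ (by norm_num) hHu2 _
  have hq3 : (H / u) ^ (n + 1) ≤ 3 ^ (n + 1) := pow_le_pow_left₀ hHu0.le hHu3 _
  have h2N : (4 : ℝ) ≤ 2 ^ (n + 1) := by
    calc (4 : ℝ) = 2 ^ 2 := by norm_num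
      _ ≤ 2 ^ (n + 1) := pow_le_pow_right₀ (by norm_num) (by omega)
  obtain ⟨a, ha⟩ : ∃ a : ℝ, a = k / (H / u) ^ (n + 1) := ⟨_, rfl⟩
  have hak : a * (H / u) ^ (n + 1) = k := by
    rw [ha, div_mul_cancel₀ _ hq0.ne']
  have ha1 : a ≤ β - 5 / 2 := by
    rw [ha, div_le_iff₀ hq0]
    exact hk1
  have ha2 : β - 11 / 4 < a := by
    rw [ha, lt_div_iff₀ hq0]
    have h3 : (β - 11 / 4) * (H / u) ^ (n + 1) =
        (β - 5 / 2) * (H / u) ^ (n + 1) - 1 / 4 * (H / u) ^ (n + 1) := by ring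
    rw [h3]
    linarith
  have ha3 : 5 / 2 ≤ a := by linarith
  have haH : a * H ^ (n + 1) = k * u ^ (n + 1) := by
    rw [← hak, div_pow]
    field_simp
  have hk0 : (0 : ℝ) < k := by
    rw [← hak]
    have : 0 < a := by linarith
    positivity
  have hp1 : GE n (fun _ : Fin k => M) a H := by
    apply Pool.Agent.H980.BW.piece t_NODE ha3 _ hHp _
    · rw [← hak, mul_comm]
      exact mul_le_mul_of_nonneg_left hq2 (by linarith)
    · rw [haH]
      exact mul_lt_mul_of_pos_left (pow_lt_pow_left₀ huM hu0.le (Nat.succ_ne_zero n)) hk0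
  -- the main inequality
  have hkB : (k : ℝ) ≤ 3 ^ (n + 2) * 3 ^ (n + 1) := by
    apply hk1.trans
    apply mul_le_mul _ hq3 hq0.le (by positivity)
    linarith
  have h6' : (H / 2) ^ n ≤ H ^ n / 2 := by
    rw [div_pow]
    apply div_le_div_of_nonneg_left (by positivity) (by norm_num)
    calc (2 : ℝ) = 2 ^ 1 := by norm_num
      _ ≤ 2 ^ n := pow_le_pow_right₀ (by norm_num) hn
  have hdiff : (k : ℝ) * ((t * g) ^ (n + 1) - u ^ (n + 1)) ≤ AE n * Λ * H ^ n / 2 := by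
    have h3 : (t * g) ^ (n + 1) - u ^ (n + 1) ≤ (n + 1) * (t * g) ^ n * (t * g - u) :=
      Pool.Agent.H980.BW.pow_sub_le hu0.le (by linarith) n
    have h4 : (t * g : ℝ) ^ n ≤ H ^ n / 2 := by
      have h5 : (t * g : ℝ) ^ n ≤ (H / 2) ^ n := pow_le_pow_left₀ (by positivity) htg n
      exact h5.trans h6'
    have h5 : t * g - u = 2 * Λ := by linarith
    rw [h5] at h3
    have h6 : (t * g) ^ (n + 1) - u ^ (n + 1) ≤ (n + 1) * (H ^ n / 2) * (2 * Λ) := by
      apply h3.trans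
      have : 0 ≤ 2 * Λ := by linarith
      apply mul_le_mul_of_nonneg_right _ this
      exact mul_le_mul_of_nonneg_left h4 (by positivity)
    have h7 : (k : ℝ) * ((t * g) ^ (n + 1) - u ^ (n + 1)) ≤
        k * ((n + 1) * (H ^ n / 2) * (2 * Λ)) := mul_le_mul_of_nonneg_left h6 hk0.le
    have h8 : (k : ℝ) * ((n + 1) * (H ^ n / 2) * (2 * Λ)) ≤
        3 ^ (n + 2) * 3 ^ (n + 1) * ((n + 1) * (H ^ n / 2) * (2 * Λ)) := by
      apply mul_le_mul_of_nonneg_right hkB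
      have : 0 < Λ := by linarith
      positivity
    apply (h7.trans h8).trans
    unfold AE
    apply le_of_eq
    ring
  have hdiff2 : (k : ℝ) * ((t * g) ^ (n + 1) - u ^ (n + 1)) ≤ C * H ^ n / 2 := by
    have hHn : 0 < H ^ n := pow_pos hHp n
    have : AE n * Λ * H ^ n ≤ C * H ^ n := mul_le_mul_of_nonneg_right hC hHn.le
    linarith
  have hhalf : C * (H / 2) ^ n ≤ C * H ^ n / 2 := by
    have h7 := mul_le_mul_of_nonneg_left h6' hC0.le
    linarith
  have hmain : (β - a) * H ^ (n + 1) + C * (H / 2) ^ n ≤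
      (r - k * (t : ℝ) ^ (n + 1)) * g ^ (n + 1) := by
    have h3 : (β - a) * H ^ (n + 1) = β * H ^ (n + 1) - k * u ^ (n + 1) := by
      rw [← haH]
      ring
    rw [h3]
    have h4 : (r - k * (t : ℝ) ^ (n + 1)) * g ^ (n + 1) =
        r * g ^ (n + 1) - k * (t * g) ^ (n + 1) := by
      rw [mul_pow]
      ring
    rw [h4]
    have h5 : (k : ℝ) * ((t * g) ^ (n + 1) - u ^ (n + 1)) =
        k * (t * g) ^ (n + 1) - k * u ^ (n + 1) := by ring
    rw [h5] at hdiff2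
    linarith
  have hb0 : 5 / 2 ≤ β - a := by linarith
  have hb1 : β - a < 11 / 4 := by linarith
  have hrk : (k : ℝ) * (t : ℝ) ^ (n + 1) ≤ r := by
    have h3 : 0 ≤ (r - k * (t : ℝ) ^ (n + 1)) * g ^ (n + 1) := by
      refine le_trans ?_ hmain
      have h4 : 0 ≤ β - a := by linarith
      have h5 : 0 ≤ C * (H / 2) ^ n := by positivity
      have h6 : 0 ≤ (β - a) * H ^ (n + 1) := by positivity
      linarith
    have h4 : 0 ≤ (r - k * (t : ℝ) ^ (n + 1)) := nonneg_of_mul_nonneg_left h3 (by positivity)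
    linarith
  have hrk' : k * t ^ (n + 1) ≤ r := by exact_mod_cast hrk
  obtain ⟨r', hr'⟩ : ∃ r' : ℕ, r = k * t ^ (n + 1) + r' := ⟨_, (Nat.add_sub_of_le hrk').symm⟩
  have hr'' : (r : ℝ) - k * (t : ℝ) ^ (n + 1) = r' := by
    rw [hr']
    push_cast
    ring
  rw [hr''] at hmain
  refine ⟨a, k * t ^ (n + 1), r', ha3, hb0, by linarith, hr'.symm, ?_, hmain⟩
  refine ⟨Fin k, inferInstance, fun _ => M, fun _ => Multiset.replicate (t ^ (n + 1)) m, hp1,
    fun _ => hM, ?_⟩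
  rw [Finset.sum_const, Finset.card_univ, Fintype.card_fin, Multiset.nsmul_replicate]

end Pool.Agent.H548.BG
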